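import Pool.Agent.H60.FXE.Fin

/-!
# MP_ea41d9_gt: the bound for the length from the diameter of the orbit space

The circle `F` fixed by the group `G` has length at most `2 √(π² + log² (-cos d))` if there are two
orbits of `G` at distance at least `d > π / 2`.
-/

open Bundle Manifold Filter Set
open scoped ContDiff Topology

namespace Pool.Agent.H48.FXF

open Pool.Agent.H48.FXD Pool.Agent.H48.FXC Pool.Agent.H60.FXE

section Kernel

variable {M : Type*} [MetricSpace M] {G : Type*} [Group G] [MulAction G M] {F : ℝ → M}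
  {m : ℝ → M → ℝ} {L ε c : ℝ}

/-- The two orbits at maximal distance are points of the curve. -/
theorem points (h : DirKer G F m ε c) (hL : 0 < L)
    (hdiam : ∀ x y : M, dist x y ≤ Real.pi) (hper : ∀ t, F (t + L) = F t) (hcont : Continuous F)
    (hfix : ∀ (g : G) (t : ℝ), g • F t = F t) (hiso : ∀ (g : G) (x y : M),
      dist (g • x) (g • y) = dist x y) {p q : M} {κ : ℝ} (hκ : κ < 0)
    (hpq : ∀ g : G, Real.cos (dist (g • p) q) ≤ κ)
    (hmin : ∀ (x y : M) (C : ℝ), (∀ g : G, Real.cos (dist (g • x) y) ≤ C) → κ ≤ C) :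
    ∃ s t, Real.cos (dist (F s) (F t)) = κ := by
  have hmove : ∀ (g : G) (x : M) (t : ℝ), dist (g • x) (F t) = dist x (F t) := by
    intro g x t
    conv_lhs => rw [← hfix g t]
    exact hiso g x (F t)
  have hp : ∀ x t, κ ≤ Real.cos (dist x (F t)) := fun x t =>
    hmin x (F t) _ (fun g => by rw [hmove g x t])
  have hqp : ∀ g : G, Real.cos (dist (g • q) p) ≤ κ := by
    intro g
    have h1 := hpq g⁻¹
    have h2 : dist (g⁻¹ • p) q = dist (g • q) p := by
      rw [← hiso g (g⁻¹ • p) q, smul_inv_smul, dist_comm]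
    rwa [h2] at h1
  obtain ⟨s0, hs0⟩ := h.mem_curve hL hdiam hper hcont hκ hpq (hp p) (hp q)
  obtain ⟨t0, ht0⟩ := h.mem_curve hL hdiam hper hcont hκ hqp (hp q) (hp p)
  refine ⟨s0, t0, le_antisymm ?_ (hp (F s0) t0)⟩
  have := hpq 1
  rw [one_smul, ← hs0, ← ht0] at this
  exact this

end Kernel

variable {E : Type*} [NormedAddCommGroup E] [NormedSpace ℝ E] [FiniteDimensional ℝ E]
  {M : Type*} [MetricSpace M] [ChartedSpace E M] [IsManifold 𝓘(ℝ, E) ∞ M]
  [RiemannianBundle (fun x : M => TangentSpace 𝓘(ℝ, E) x)]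
  [IsContMDiffRiemannianBundle 𝓘(ℝ, E) ∞ E (fun x : M => TangentSpace 𝓘(ℝ, E) x)]
  [IsRiemannianManifold 𝓘(ℝ, E) M]
  {G : Type*} [Group G] [TopologicalSpace G] [IsTopologicalGroup G] [CompactSpace G]
  [MulAction G M] {F : ℝ → M} {L : ℝ}

/-- The condition on the normal vectors is empty for `c = -1`. -/
theorem normalAngle_neg_one (hG : IsometricAction E M G) (hF : FixedCircle E G F L) :
    NormalAngle E G F (-1) := by
  intro t v w _ _ hv hw
  refine ⟨1, ?_⟩
  have hz : (1 : G) • F t = F t := hF.smul_eq 1 t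
  have h1 : tin (F t) (dg (1 : G) (F t) v) w ^ 2 ≤ 1 := by
    have h2 := dg_tin hG hz v v
    have h3 : tn (F t) (dg (1 : G) (F t) v) = 1 := by
      have h4 : tn (F t) (dg (1 : G) (F t) v) ^ 2 = 1 := by
        rw [tn_sq, h2, ← tn_sq, hv, one_pow]
      exact (pow_left_inj₀ (tn_nonneg _ _) zero_le_one two_ne_zero).1 (by rw [h4, one_pow])
    obtain ⟨v', hv'⟩ : ∃ v' : E, v' = dg (1 : G) (F t) v := ⟨_, rfl⟩
    rw [← hv'] at h3 ⊢
    have h6 : |tin (F t) v' w| ≤ tn (F t) v' * tn (F t) w :=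
      @abs_real_inner_le_norm (TangentSpace 𝓘(ℝ, E) (F t)) _ _ v' w
    rw [h3, hw, one_mul] at h6
    have h7 := sq_abs (tin (F t) v' w)
    have h8 := abs_nonneg (tin (F t) v' w)
    nlinarith only [h6, h7, h8]
  nlinarith only [h1]

/-- The bound for the length of the fixed circle. -/
theorem circle_length_le_log [CompactSpace M] (hM : CurvGeOne M) (hG : IsometricAction E M G)
    (hF : FixedCircle E G F L) {p q : M} {d : ℝ} (hd : Real.pi / 2 < d)
    (hpq : ∀ g : G, d ≤ dist (g • p) q) :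
    L ≤ 2 * Real.sqrt (Real.pi ^ 2 + Real.log (-Real.cos d) ^ 2) := by
  obtain ⟨m, ε, h⟩ := exists_dirKer hM hG hF (fun t v hv => fixed_vector hG hF t v hv)
    (normalAngle_neg_one hG hF)
  have hact : Continuous fun x : G × M => x.1 • x.2 := Pool.Agent.H5.FXD.pf_MCA hG
  have hne : Nonempty M := ⟨p⟩
  obtain ⟨p', q', κ, h1, h2⟩ := exists_pair (M := M) (G := G) (fun g =>
    hact.comp (continuous_const.prodMk continuous_id))
  have hdpi : d ≤ Real.pi := (hpq 1).trans (hM.diam_le _ _)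
  have hd0 : 0 ≤ d := by linarith only [hd, Real.pi_pos]
  have h3 : κ ≤ Real.cos d := h2 p q _ (fun g =>
    Real.cos_le_cos_of_nonneg_of_le_pi hd0 (hM.diam_le _ _) (hpq g))
  have h4 : Real.cos d < 0 :=
    Real.cos_neg_of_pi_div_two_lt_of_lt hd (by linarith only [hdpi, Real.pi_pos])
  have hκ : κ < 0 := h3.trans_lt h4
  obtain ⟨s, t, hst⟩ := points h hF.length_pos hM.diam_le hF.periodic hF.smooth.continuous
    hF.smul_eq (Pool.Agent.H7.FXD.pf_DMP hG) hκ h1 h2
  have hD : Real.pi / 2 < dist (F s) (F t) := by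
    by_contra hc
    have h5 := Real.cos_nonneg_of_mem_Icc (x := dist (F s) (F t))
      ⟨by linarith only [dist_nonneg (x := F s) (y := F t), Real.pi_pos], not_lt.1 hc⟩
    rw [hst] at h5
    exact absurd h5 (not_le.2 hκ)
  have h6 := (fixedCircle_curveKer hM hG hF).bound_pair hD
  rw [hst] at h6
  have h7 : Real.log (-Real.cos d) ≤ Real.log (-κ) :=
    Real.log_le_log (by linarith only [h4]) (by linarith only [h3])
  have h8 : Real.log (-κ) ≤ 0 := by
    refine Real.log_nonpos (by linarith only [hκ]) ?_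
    rw [← hst]
    linarith only [Real.neg_one_le_cos (dist (F s) (F t))]
  have h9 : Real.log (-κ) ^ 2 ≤ Real.log (-Real.cos d) ^ 2 := by nlinarith only [h7, h8]
  have h10 := Real.sqrt_le_sqrt (add_le_add_right h9 (Real.pi ^ 2))
  linarith only [h6, h10]

end Pool.Agent.H48.FXF
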